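import Mathlib
import Pool.Agent.J4.H38.BP.Defs
import Pool.Agent.J4.H38.DV.All
import Pool.Agent.J4.H38.SR.Avg

/-! Project BP (helper38), piece B6 (helper60): the base for a rough set, for both kinds of shifts at once, from the statements of the
other pieces. -/

set_option autoImplicit false

namespace Pool.Agent.J4.H60.BP

open Finset Filter
open Pool.Agent.Y822
open Pool.Agent.J4.H38.SR
open Pool.Agent.J4.H38.SR2
open Pool.Agent.J4.H38.DV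
open Pool.Agent.J4.H38.BP
open Pool.Agent.H373R2.T7 (pz Vz mem_pz)

/-- statement of `bavG` (`a N t = -(N + t)`) and `bavT` (`a N t = t`) -/
def St_bav (M : ℕ → ℕ) (a : ℕ → ℕ → ℤ) : Prop :=
  ∀ (C η : ℝ), 0 ≤ C → 0 < η → ∀ Δ : ℕ, ∃ w₀ : ℕ, 2 ≤ w₀ ∧ ∀ w : ℕ, w₀ ≤ w → ∀ᶠ N : ℕ in atTop,
    ∀ H y : ℕ, Real.log N ≤ H → H ≤ N → ∀ h : ℤ, |h| ≤ Δ →
    ∑ t ∈ AW w (M N) H, (∏ p ∈ (pz y).filter (fun p => w < p ∧ (p : ℤ) ∣ a N t - h), (1 + C / (p : ℝ)) - 1) ≤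
      η * (AW w (M N) H).card

/-- the sums over the pairs of shifts -/
def St_pair (M : ℕ → ℕ) : Prop :=
  ∀ (C η : ℝ), 0 ≤ C → 0 < η → ∃ w₀ : ℕ, 2 ≤ w₀ ∧ ∀ w : ℕ, w₀ ≤ w → ∀ᶠ N : ℕ in atTop,
    ∀ H y : ℕ, Real.log N ≤ H → H ≤ N → ∀ s ∈ AW w (M N) H, ∑ t ∈ (AW w (M N) H).erase s,
      (∏ p ∈ (pz y).filter (fun p => w < p ∧ (p : ℤ) ∣ (s : ℤ) - t), (1 + C / (p : ℝ)) - 1) ≤
        η * (AW w (M N) H).card

/-- statement of `bav2` -/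
def St_bav2 : Prop := ∀ k m : ℕ, ∃ (C Ca : ℝ) (w₀ : ℕ), 0 < C ∧ 0 ≤ Ca ∧ 2 ≤ w₀ ∧ ∀ w : ℕ, w₀ ≤ w →
    ∀ S0 : Finset ℤ, S0.card = m → (∀ p : ℕ, p.Prime → w < p → eZ S0 p = m) →
    ∀ (y : ℕ) (A : Finset ℕ) (a : ℕ → ℤ) (ζ : ℝ), w ≤ y → 0 ≤ ζ → ζ ≤ 1 → (∀ s t : ℕ, a s - a t = s - t ∨ a s - a t = t - s) →
    (∀ h ∈ S0, ∑ t ∈ A, (∏ p ∈ (pz y).filter (fun p => w < p ∧ (p : ℤ) ∣ a t - h), (1 + Ca / (p : ℝ)) - 1) ≤
      ζ * A.card) →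
    (∀ s ∈ A, ∑ t ∈ A.erase s,
      (∏ p ∈ (pz y).filter (fun p => w < p ∧ (p : ℤ) ∣ (s : ℤ) - t), (1 + Ca / (p : ℝ)) - 1) ≤ ζ * A.card) →
    ∀ j ≤ k, ∑ T ∈ A.powersetCard j, |PB S0 (T.image a) w y - GB m w y ^ j| ≤
      C * (ζ + 1 / w) * (GB m w y * A.card) ^ j

/-- statement of `bcntT` and `bcntG` -/
def St_bcnt (Fx : (ℕ → ℝ) → ℕ → ℕ → Finset ℕ → ℝ) (M : ℕ → ℕ) (a : ℕ → ℕ → ℤ) : Prop :=
  ∀ m k Δ : ℕ, ∃ C0 : ℕ, 1 ≤ C0 ∧ ∀ b : ℕ, C0 ≤ b → ∀ᶠ N : ℕ in atTop, ∀ T0 : Finset ℕ, T0.card = m →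
    (∀ h ∈ T0, h ≤ Δ) → ∀ z ∈ T0, ∀ w y y0 : ℕ, 2 ≤ w → Δ < w → w ≤ y → y ≤ y0 → y0 ^ (C0 * b) ≤ N → ∀ H : ℕ,
    ∀ T ⊆ AW w (M N) H, T.card ≤ k →
    |Fx (muB T0 z y0) N y T - N * VT y0 T0 * PB (fz T0 z) (T.image (a N)) w y| ≤
      (1 / 2) ^ b * (N * VT y0 T0 * PB (fz T0 z) (T.image (a N)) w y) + (N : ℝ) ^ (1 / 2 : ℝ)

/-- statement of `GB_bd` -/
def St_GB : Prop := ∀ m : ℕ, ∃ w₀ : ℕ, 2 ≤ w₀ ∧ ∀ w y : ℕ, w₀ ≤ w → w ≤ y →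
    1 / 2 * Vz y ≤ GB m w y ∧ GB m w y ≤ Vz y / Vz w ∧ GB m w y ≤ 1

/-- statement of `VT_bd` -/
def St_VT : Prop := ∀ T0 : Finset ℕ, (∀ p : ℕ, p.Prime → fT T0 p < p) → ∃ c C : ℝ, 0 < c ∧ 0 < C ∧ ∀ y : ℕ,
    c * Vz y ^ T0.card ≤ VT y T0 ∧ VT y T0 ≤ C * Vz y ^ T0.card

/-- statement of `stepD` and `stepDT` -/
def St_stB (Fx : (ℕ → ℝ) → ℕ → ℕ → Finset ℕ → ℝ) : Prop :=
  ∀ j : ℕ, ∃ C : ℝ, 0 < C ∧ ∀ (N y : ℕ) (A : Finset ℕ) (f μ : ℕ → ℝ),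
    (∀ m, 0 ≤ f m ∧ f m ≤ μ m) →
    ∀ (G η n e₀ : ℝ) (P : Finset ℕ → ℝ), 0 < G → G ≤ 1 → 0 < η → η ≤ 1 → 0 ≤ n → 0 ≤ e₀ →
    1 ≤ η * (G * A.card) → e₀ ≤ η * (n * G ^ (j + 2)) →
    (∀ T ⊆ A, T.card ≤ j + 2 → 0 ≤ P T ∧ |Fx μ N y T - n * P T| ≤ η * (n * P T) + e₀) →
    (∀ i ≤ j + 2, ∑ T ∈ A.powersetCard i, |P T - G ^ i| ≤ η * (G * A.card) ^ i) →
    ∑ S ∈ A.powersetCard j, ∑ t ∈ A \ S, |Fx f N y (insert t S) - G * Fx f N y S| ≤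
      C * Real.sqrt η * (n * (G * A.card) ^ (j + 1))

lemma eZ_le (S : Finset ℤ) (p : ℕ) (hp : 0 < p) : eZ S p ≤ p := by
  unfold eZ
  have h1 : S.image (fun s => s % (p : ℤ)) ⊆ Finset.Ico (0 : ℤ) p := by
    intro x hx
    obtain ⟨s, -, rfl⟩ := mem_image.1 hx
    have hp' : (0 : ℤ) < p := by exact_mod_cast hp
    exact Finset.mem_Ico.2 ⟨Int.emod_nonneg _ hp'.ne', Int.emod_lt_of_pos _ hp'⟩
  have h2 := card_le_card h1
  rw [Int.card_Ico, sub_zero, Int.toNat_natCast] at h2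
  exact h2

lemma PB_nonneg (S0 S : Finset ℤ) (w y : ℕ) (h : ∀ p : ℕ, p.Prime → w < p → eZ S0 p < p) : 0 ≤ PB S0 S w y := by
  refine prod_nonneg fun p hp => ?_
  obtain ⟨hp1, hp2⟩ := mem_filter.1 hp
  have hpp := (mem_pz.1 hp1).2
  have h1 : (eZ S0 p : ℝ) < p := by exact_mod_cast h p hpp hp2
  have h2 : (eZ (S0 ∪ S) p : ℝ) ≤ p := by exact_mod_cast eZ_le _ p hpp.pos
  have h3 : 0 < (p : ℝ) - eZ S0 p := by linarith
  rw [sub_nonneg, div_le_one h3]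
  linarith

lemma eZ_fz (T0 : Finset ℕ) (z Δ : ℕ) (hΔ : ∀ h ∈ T0, h ≤ Δ) (p : ℕ) (hp : Δ < p) : eZ (fz T0 z) p = T0.card := by
  unfold eZ fz
  rw [image_image, card_image_of_injOn]
  intro h hh h' hh' heq
  have h1 : (((h : ℤ) - z) % (p : ℤ)) = (((h' : ℤ) - z) % (p : ℤ)) := heq
  have h2 : ((h : ℤ) - z) ≡ ((h' : ℤ) - z) [ZMOD p] := h1
  have h3 : (h : ℤ) ≡ h' [ZMOD p] := by
    have := h2.add_right (z : ℤ)
    simpa using this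
  have h4 : h ≡ h' [MOD p] := (Int.natCast_modEq_iff).1 h3
  exact Nat.ModEq.eq_of_lt_of_lt h4 (lt_of_le_of_lt (hΔ h hh) hp) (lt_of_le_of_lt (hΔ h' hh') hp)

lemma card_fz (T0 : Finset ℕ) (z : ℕ) : (fz T0 z).card = T0.card := by
  unfold fz
  apply card_image_of_injective
  intro a b h
  have : (a : ℤ) - z = b - z := h
  omega

lemma Vz_posB (z : ℕ) : 0 < Vz z := by
  refine prod_pos fun p hp => ?_
  have h : (2 : ℝ) ≤ p := by exact_mod_cast (mem_pz.1 hp).2.two_le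
  have h2 : 1 / (p : ℝ) ≤ 1 / 2 := one_div_le_one_div_of_le (by norm_num) h
  linarith

/-- the powers of the logarithm -/
lemma ev_logpow (c : ℝ) (hc : 0 < c) (K : ℕ) : ∀ᶠ N : ℕ in atTop,
    Real.log N ^ K ≤ c * (N : ℝ) ^ (1 / 2 : ℝ) := by
  have h1 := (isLittleO_log_rpow_rpow_atTop (s := 1 / 2) (K : ℝ) (by norm_num)).bound hc
  have h2 := (tendsto_natCast_atTop_atTop (R := ℝ)).eventually h1
  filter_upwards [h2, eventually_ge_atTop 1] with N h3 hN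
  have hlog : 0 ≤ Real.log N := Real.log_natCast_nonneg N
  rw [Real.rpow_natCast, Real.norm_of_nonneg (pow_nonneg hlog K),
    Real.norm_of_nonneg (Real.rpow_nonneg (Nat.cast_nonneg _) _)] at h3
  exact h3

/-- the choice of `b` -/
lemma choose_b (a : ℝ) (m C0 : ℕ) (c : ℝ) (hc : 0 < c) : ∃ b : ℕ, C0 ≤ b ∧ 1 ≤ b ∧
    a * ((b : ℝ) ^ m * (Real.sqrt (1 / 2)) ^ b) ≤ c := by
  have h0 : 0 ≤ Real.sqrt (1 / 2) := Real.sqrt_nonneg _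
  have h1 : Real.sqrt (1 / 2) < 1 := by
    rw [Real.sqrt_lt' one_pos]
    norm_num
  have h2 := (tendsto_pow_const_mul_const_pow_of_abs_lt_one m
    (show |Real.sqrt (1 / 2)| < 1 by rwa [abs_of_nonneg h0])).const_mul a
  rw [mul_zero] at h2
  have h3 := h2.eventually (ge_mem_nhds hc)
  obtain ⟨b, hb1, hb2⟩ := (h3.and (eventually_ge_atTop (C0 + 1))).exists
  exact ⟨b, by omega, by omega, hb1⟩

/-- **the core of B6**, for both kinds of shifts -/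
theorem coreB (Fx : (ℕ → ℝ) → ℕ → ℕ → Finset ℕ → ℝ) (gx : ℕ → ℕ → Finset ℕ → ℕ → ℝ) (M : ℕ → ℕ)
    (a : ℕ → ℕ → ℤ) (hFx : ∀ f N y T, Fx f N y T = ∑ m ∈ Icc 1 N, f m * gx N y T m)
    (hgx : ∀ N y m, gx N y ∅ m = 1)
    (ha : ∀ N s t : ℕ, a N s - a N t = s - t ∨ a N s - a N t = t - s)
    (hbav : St_bav M a) (hpair : St_pair M) (hbav2 : St_bav2) (hcnt : St_bcnt Fx M a) (hGB : St_GB) (hVT : St_VT)
    (hAW : St_AW) (hstep : St_stB Fx) (hchain : St_chain)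
    (k : ℕ) (T0 : Finset ℕ) (z : ℕ) (hz : z ∈ T0) (hadm : ∀ p : ℕ, p.Prime → fT T0 p < p)
    (δ ε κ1 : ℝ) (hδ : 0 < δ) (hε : 0 < ε) (hκ1 : 0 < κ1) : ∃ w₀ : ℕ, 2 ≤ w₀ ∧ ∀ w : ℕ, w₀ ≤ w → ∃ κ₀ : ℝ, 0 < κ₀ ∧
    ∀ κ : ℝ, 0 < κ → κ ≤ κ₀ →
    ∃ Λ : ℝ, 0 < Λ ∧ ∀ᶠ N : ℕ in atTop, ∀ y : ℕ, (y : ℝ) < (N : ℝ) ^ κ → (N : ℝ) ^ κ ≤ y + 1 →
    ∀ H : ℕ, Λ * Real.log N ≤ H → H ≤ N → ∀ P ⊆ Icc 1 N,
    (∀ p ∈ P, z < p ∧ ∀ h ∈ T0, ∀ q : ℕ, q.Prime → (q : ℝ) ≤ (N : ℝ) ^ κ1 → ¬ q ∣ p - z + h) →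
    δ * (N / Real.log N ^ T0.card) ≤ P.card →
    ∀ Bad : Finset (Finset ℕ), (∀ D ∈ Bad, D ∈ (AW w (M N) H).powersetCard k ∧
      ∑ p ∈ P, gx N y D p < 1 / 2 * (P.card * GB T0.card w y ^ k)) →
    (Bad.card : ℝ) ≤ ε * ((AW w (M N) H).card : ℝ) ^ k := by
  classical
  obtain ⟨m, hm⟩ : ∃ m : ℕ, m = T0.card := ⟨_, rfl⟩
  obtain ⟨Δ, hΔ'⟩ : ∃ Δ : ℕ, Δ = T0.sup id := ⟨_, rfl⟩
  have hΔ : ∀ h ∈ T0, h ≤ Δ := fun h hh => by
    rw [hΔ']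
    exact le_sup (f := id) hh
  have hmΔ : m ≤ Δ + 1 := by
    have h1 : T0 ⊆ range (Δ + 1) := fun h hh => mem_range.2 (by have := hΔ h hh; omega)
    have h2 := card_le_card h1
    rw [card_range] at h2
    omega
  rw [← hm]
  -- the constants
  choose Cj hCj hstep' using hstep
  obtain ⟨C, hC⟩ : ∃ C : ℝ, C = 1 + ∑ j ∈ range k, Cj j := ⟨_, rfl⟩
  have hC1 : ∀ j < k, Cj j ≤ C := by
    intro j hj
    have h1 : Cj j ≤ ∑ j ∈ range k, Cj j :=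
      single_le_sum (f := Cj) (fun i _ => (hCj i).le) (mem_range.2 hj)
    rw [hC]
    linarith
  have hC0 : 0 < C := by
    have h1 : 0 ≤ ∑ j ∈ range k, Cj j := sum_nonneg fun i _ => (hCj i).le
    rw [hC]
    linarith
  obtain ⟨C2, Ca, w2, hC2, hCa, hw22, hav2'⟩ := hbav2 (k + 1) m
  obtain ⟨B0, hB0, hcnt'⟩ := hcnt m (k + 1) Δ
  obtain ⟨cT, CT, hcT, hCT, hVT'⟩ := hVT T0 hadm
  rw [← hm] at hVT'
  obtain ⟨c0, hc0, hV⟩ := Vz_sharp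
  have hB0r : (1 : ℝ) ≤ B0 := by exact_mod_cast hB0
  obtain ⟨b, hb1, hb2, hb3⟩ := choose_b (k * C * CT * (2 * (1 / κ1 + B0)) ^ m) m B0 (δ * ε / 2) (by positivity)
  have hbr : (1 : ℝ) ≤ b := by exact_mod_cast hb2
  -- the parameter `η`
  obtain ⟨s, hs⟩ : ∃ s : ℝ, s = (Real.sqrt (1 / 2)) ^ b := ⟨_, rfl⟩
  have hr0 : 0 < Real.sqrt (1 / 2) := Real.sqrt_pos.2 (by norm_num)
  have hs0 : 0 < s := by rw [hs]; positivity
  obtain ⟨η, hη⟩ : ∃ η : ℝ, η = (1 / 2 : ℝ) ^ b := ⟨_, rfl⟩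
  have hη0 : 0 < η := by rw [hη]; positivity
  have hη1 : η ≤ 1 := by rw [hη]; exact pow_le_one₀ (by norm_num) (by norm_num)
  have hsq : Real.sqrt η = s := by
    have h1 : η = s ^ 2 := by
      rw [hη, hs, ← pow_mul, mul_comm b 2, pow_mul, Real.sq_sqrt (by norm_num)]
    rw [h1]
    exact Real.sqrt_sq hs0.le
  rw [← hs] at hb3
  -- the parameter `ζ`
  obtain ⟨ζ, hζ⟩ : ∃ ζ : ℝ, ζ = η / (2 * (C2 + 1)) := ⟨_, rfl⟩
  have hζ0 : 0 < ζ := by rw [hζ]; positivity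
  have hζ1 : ζ ≤ 1 := by
    rw [hζ, div_le_one (by positivity)]
    linarith
  have hC2ζ : C2 * ζ ≤ η / 2 := by
    rw [hζ, mul_div_assoc', div_le_div_iff₀ (by positivity) (by norm_num)]
    nlinarith
  obtain ⟨w1, hw12, hbav'⟩ := hbav Ca ζ hCa hζ0 Δ
  obtain ⟨w3, hw32, hpair'⟩ := hpair Ca ζ hCa hζ0
  obtain ⟨w4, hw42, hGB'⟩ := hGB m
  refine ⟨3 + Δ + w1 + w2 + w3 + w4 + ⌈2 * C2 / η⌉₊, by omega, fun w hw => ?_⟩
  have hwΔ : Δ < w := by omega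
  have hw2 : 2 ≤ w := by omega
  have hw0 : (0 : ℝ) < w := by exact_mod_cast (by omega : 0 < w)
  have hC2w : C2 * (1 / w) ≤ η / 2 := by
    have h1 : 2 * C2 / η ≤ w := (Nat.le_ceil _).trans (Nat.cast_le.2 (by omega))
    rw [div_le_iff₀ hη0] at h1
    rw [mul_one_div, div_le_div_iff₀ hw0 (by norm_num)]
    linarith
  have hζη : C2 * (ζ + 1 / w) ≤ η := by
    rw [mul_add]
    linarith
  -- the exponent
  obtain ⟨κ0, hκ0⟩ : ∃ κ0 : ℝ, κ0 = min κ1 (1 / (B0 * b)) := ⟨_, rfl⟩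
  have hκ00 : 0 < κ0 := by
    rw [hκ0]
    exact lt_min hκ1 (by positivity)
  have hκ0a : κ0 ≤ κ1 := by rw [hκ0]; exact min_le_left _ _
  have hκ0b : κ0 ≤ 1 / (B0 * b) := by rw [hκ0]; exact min_le_right _ _
  have hκinv : 1 / κ0 ≤ (1 / κ1 + B0) * b := by
    have h1 : 0 < 1 / κ1 := by positivity
    rw [hκ0]
    rcases min_choice κ1 (1 / (B0 * b)) with h | h
    · rw [h]
      nlinarith
    · rw [h, one_div_one_div]
      nlinarith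
  have hkey : k * (C * s) * (CT * (2 / κ0) ^ m) ≤ δ * ε / 2 := by
    refine le_trans ?_ hb3
    have h1 : (2 / κ0) ^ m ≤ (2 * (1 / κ1 + B0)) ^ m * (b : ℝ) ^ m := by
      rw [← mul_pow]
      apply pow_le_pow_left₀ (by positivity)
      calc 2 / κ0 = 2 * (1 / κ0) := by ring
        _ ≤ 2 * ((1 / κ1 + B0) * b) := by linarith
        _ = _ := by ring
    calc k * (C * s) * (CT * (2 / κ0) ^ m) ≤ k * (C * s) * (CT * ((2 * (1 / κ1 + B0)) ^ m * (b : ℝ) ^ m)) := by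
          apply mul_le_mul_of_nonneg_left _ (by positivity)
          exact mul_le_mul_of_nonneg_left h1 hCT.le
      _ = k * C * CT * (2 * (1 / κ1 + B0)) ^ m * ((b : ℝ) ^ m * s) := by ring
  obtain ⟨W, hW⟩ : ∃ W : ℕ, W = ∏ p ∈ pz w, p := ⟨_, rfl⟩
  have hW1 : 1 ≤ W := by
    rw [hW]
    exact Nat.one_le_iff_ne_zero.2 (prod_ne_zero_iff.2 fun p hp => (mem_pz.1 hp).2.ne_zero)
  have hWr : (1 : ℝ) ≤ W := by exact_mod_cast hW1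
  refine ⟨κ0, hκ00, fun κ hκ hκ' => ?_⟩
  refine ⟨W * (2 * κ / (c0 * η) + 1), by positivity, ?_⟩
  have hlim : Tendsto (fun N : ℕ => Real.log (N : ℝ)) atTop atTop :=
    Real.tendsto_log_atTop.comp (tendsto_natCast_atTop_atTop (R := ℝ))
  have hpow : ∀ κ : ℝ, 0 < κ → Tendsto (fun N : ℕ => (N : ℝ) ^ κ) atTop atTop := fun κ hκ =>
    (tendsto_rpow_atTop hκ).comp (tendsto_natCast_atTop_atTop (R := ℝ))
  filter_upwards [hbav' w (by omega), hpair' w (by omega), hcnt' b hb1, hlim.eventually_ge_atTop 1,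
    ev_logpow (η * (cT * (c0 / κ0) ^ m * (c0 / (2 * κ)) ^ (k + 1))) (by positivity) (m + (k + 1)),
    (hpow κ hκ).eventually_ge_atTop (((max w 3 : ℕ) : ℝ) + 1),
    (hpow (κ0 / 2) (by positivity)).eventually_ge_atTop 2, eventually_ge_atTop 2]
    with N hN1 hN2 hN3 hN4 hN5 hN6 hN8 hN7
  intro y hy1 hy2 H hH1 hH2 P hP hPr hPc Bad hBad
  -- facts on `y`
  have hymax : max w 3 ≤ y := by
    have h1 : ((max w 3 : ℕ) : ℝ) ≤ y := by linarith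
    exact_mod_cast h1
  have hyw : w ≤ y := (le_max_left _ _).trans hymax
  have hy3 : 3 ≤ y := (le_max_right _ _).trans hymax
  have hNr : (1 : ℝ) < N := by exact_mod_cast (by omega : 1 < N)
  have hN0 : (0 : ℝ) < N := by linarith
  have hL0 : 0 < Real.log N := by linarith
  have hlogy : Real.log y ≤ κ * Real.log N := by
    rw [← Real.log_rpow hN0]
    exact Real.log_le_log (by exact_mod_cast (by omega : 0 < y)) hy1.le
  have hlogy0 : 0 < Real.log y := Real.log_pos (by exact_mod_cast (by omega : 1 < y))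
  -- facts on `y0`
  obtain ⟨y0, hy0⟩ : ∃ y0 : ℕ, y0 = ⌊(N : ℝ) ^ κ0⌋₊ := ⟨_, rfl⟩
  have hy0le : (y0 : ℝ) ≤ (N : ℝ) ^ κ0 := by
    rw [hy0]
    exact Nat.floor_le (Real.rpow_nonneg hN0.le _)
  have hyy0 : y ≤ y0 := by
    rw [hy0]
    apply Nat.le_floor
    exact hy1.le.trans (Real.rpow_le_rpow_of_exponent_le hNr.le hκ')
  have hy03 : 3 ≤ y0 := hy3.trans hyy0
  have hy0K : y0 ^ (B0 * b) ≤ N := by
    have h1 : (y0 : ℝ) ^ (B0 * b) ≤ N := by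
      calc (y0 : ℝ) ^ (B0 * b) ≤ ((N : ℝ) ^ κ0) ^ (B0 * b) := pow_le_pow_left₀ (Nat.cast_nonneg _) hy0le _
        _ = (N : ℝ) ^ (κ0 * ((B0 * b : ℕ) : ℝ)) := by rw [Real.rpow_mul hN0.le, Real.rpow_natCast]
        _ ≤ (N : ℝ) ^ (1 : ℝ) := by
            apply Real.rpow_le_rpow_of_exponent_le hNr.le
            have hK0 : (0 : ℝ) < B0 * b := by positivity
            push_cast
            calc κ0 * (B0 * b) ≤ 1 / (B0 * b) * (B0 * b) := mul_le_mul_of_nonneg_right hκ0b hK0.le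
              _ = 1 := by field_simp
        _ = N := Real.rpow_one _
    exact_mod_cast h1
  have hlogy0u : Real.log y0 ≤ κ0 * Real.log N := by
    rw [← Real.log_rpow hN0]
    exact Real.log_le_log (by exact_mod_cast (by omega : 0 < y0)) hy0le
  have hlogy00 : 0 < Real.log y0 := Real.log_pos (by exact_mod_cast (by omega : 1 < y0))
  have hlogy0l : κ0 / 2 * Real.log N ≤ Real.log y0 := by
    have h1 : (N : ℝ) ^ (κ0 / 2) ≤ y0 := by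
      have h2 : (N : ℝ) ^ κ0 = (N : ℝ) ^ (κ0 / 2) * (N : ℝ) ^ (κ0 / 2) := by
        rw [← Real.rpow_add hN0]
        ring_nf
      have h3 : (N : ℝ) ^ κ0 < y0 + 1 := by
        rw [hy0]
        exact Nat.lt_floor_add_one _
      nlinarith
    rw [← Real.log_rpow hN0]
    exact Real.log_le_log (Real.rpow_pos_of_pos hN0 _) h1
  -- the main term
  have hVy0 := Vz_posB y0
  have hVy0u : Vz y0 ≤ 2 / κ0 / Real.log N := by
    refine (Vz_le y0 (by omega)).trans ?_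
    have h1 : 1 / Real.log y0 ≤ 1 / (κ0 / 2 * Real.log N) :=
      one_div_le_one_div_of_le (by positivity) hlogy0l
    refine h1.trans (le_of_eq ?_)
    field_simp
  have hVy0l : c0 / κ0 / Real.log N ≤ Vz y0 := by
    refine le_trans ?_ (hV y0 hy03)
    rw [div_div]
    exact div_le_div_of_nonneg_left hc0.le hlogy00 hlogy0u
  obtain ⟨hVTl, hVTu⟩ := hVT' y0
  obtain ⟨n, hn⟩ : ∃ n : ℝ, n = N * VT y0 T0 := ⟨_, rfl⟩
  have hVT0 : 0 < VT y0 T0 := lt_of_lt_of_le (by positivity) hVTl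
  have hn0 : 0 < n := by rw [hn]; positivity
  have hnl : N * (cT * ((c0 / κ0) ^ m / Real.log N ^ m)) ≤ n := by
    rw [hn]
    apply mul_le_mul_of_nonneg_left _ hN0.le
    refine le_trans ?_ hVTl
    apply mul_le_mul_of_nonneg_left _ hcT.le
    rw [← div_pow]
    exact pow_le_pow_left₀ (by positivity) hVy0l _
  have hnu : n ≤ N * (CT * ((2 / κ0) ^ m / Real.log N ^ m)) := by
    rw [hn]
    apply mul_le_mul_of_nonneg_left _ hN0.le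
    refine hVTu.trans ?_
    apply mul_le_mul_of_nonneg_left _ hCT.le
    rw [← div_pow]
    exact pow_le_pow_left₀ hVy0.le hVy0u _
  -- the density
  obtain ⟨G, hG⟩ : ∃ G : ℝ, G = GB m w y := ⟨_, rfl⟩
  obtain ⟨hG1, -, hG2⟩ := hGB' w y (by omega) hyw
  rw [← hG] at hG1 hG2
  have hGlow : c0 / (2 * κ) / Real.log N ≤ G := by
    have h1 := hV y hy3
    have h2 : c0 / (κ * Real.log N) ≤ c0 / Real.log y :=
      div_le_div_of_nonneg_left hc0.le hlogy0 hlogy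
    have h3 : c0 / (2 * κ) / Real.log N = 1 / 2 * (c0 / (κ * Real.log N)) := by
      field_simp
    rw [h3]
    linarith
  have hG0 : 0 < G := lt_of_lt_of_le (by positivity) hGlow
  -- the number of the shifts
  obtain ⟨A, hA⟩ : ∃ A : Finset ℕ, A = AW w (M N) H := ⟨_, rfl⟩
  have hAc := (hAW w (M N) H).2
  rw [← hA, ← hW] at hAc
  have hcard : 2 * κ / (c0 * η) * Real.log N ≤ A.card := by
    have h1 : (W : ℝ) * (2 * κ / (c0 * η) + 1) * Real.log N ≤ W * (A.card + 1) := hH1.trans hAc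
    have h2 : (2 * κ / (c0 * η) + 1) * Real.log N ≤ A.card + 1 := by
      have h3 : (W : ℝ) * ((2 * κ / (c0 * η) + 1) * Real.log N) ≤ W * (A.card + 1) := by
        rw [← mul_assoc]; exact h1
      exact le_of_mul_le_mul_left h3 (by linarith)
    have h4 : (2 * κ / (c0 * η) + 1) * Real.log N = 2 * κ / (c0 * η) * Real.log N + Real.log N := by ring
    linarith
  have hone : 1 ≤ η * (G * A.card) := by
    have h1 : c0 / (2 * κ) / Real.log N * (2 * κ / (c0 * η) * Real.log N) ≤ G * A.card :=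
      mul_le_mul hGlow hcard (by positivity) hG0.le
    have h2 : c0 / (2 * κ) / Real.log N * (2 * κ / (c0 * η) * Real.log N) = 1 / η := by
      field_simp
    rw [h2] at h1
    calc (1 : ℝ) = η * (1 / η) := by field_simp
      _ ≤ η * (G * A.card) := mul_le_mul_of_nonneg_left h1 hη0.le
  have hlogH : Real.log N ≤ H := by
    refine le_trans ?_ hH1
    have h1 : (1 : ℝ) ≤ W * (2 * κ / (c0 * η) + 1) := by
      have h2 : (1 : ℝ) ≤ 2 * κ / (c0 * η) + 1 := by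
        have : 0 ≤ 2 * κ / (c0 * η) := by positivity
        linarith
      nlinarith
    nlinarith
  -- the averages
  have hfzΔ : ∀ h ∈ fz T0 z, |h| ≤ (Δ : ℤ) := by
    intro h hh
    obtain ⟨h', hh', rfl⟩ := mem_image.1 hh
    have h1 := hΔ h' hh'
    have h2 := hΔ z hz
    rw [abs_le]
    constructor <;> omega
  have hav := hav2' w (by omega) (fz T0 z) (by rw [card_fz, hm])
    (fun p _ hp => by rw [eZ_fz T0 z Δ hΔ p (by omega), hm]) y A (a N) ζ hyw hζ0.le hζ1 (ha N)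
    (fun h hh => by rw [hA]; exact hN1 H y hlogH hH2 h (hfzΔ h hh))
    (fun t ht => by rw [hA] at ht ⊢; exact hN2 H y hlogH hH2 t ht)
  have hPB0 : ∀ S : Finset ℤ, 0 ≤ PB (fz T0 z) S w y := fun S =>
    PB_nonneg _ _ _ _ fun p _ hp => by
      rw [eZ_fz T0 z Δ hΔ p (by omega), ← hm]
      omega
  -- the error term
  have he0 : ∀ i ≤ k + 1, (N : ℝ) ^ (1 / 2 : ℝ) ≤ η * (n * G ^ i) := by
    intro i hi
    have h1 : G ^ (k + 1) ≤ G ^ i := pow_le_pow_of_le_one hG0.le hG2 hi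
    have h2 : (c0 / (2 * κ)) ^ (k + 1) / Real.log N ^ (k + 1) ≤ G ^ (k + 1) := by
      rw [← div_pow]
      exact pow_le_pow_left₀ (by positivity) hGlow _
    have hsqN : (N : ℝ) ^ (1 / 2 : ℝ) * (N : ℝ) ^ (1 / 2 : ℝ) = N := by
      rw [← Real.rpow_add hN0]
      norm_num
    have hsq0 : 0 < (N : ℝ) ^ (1 / 2 : ℝ) := Real.rpow_pos_of_pos hN0 _
    have hLk : 0 < Real.log N ^ (m + (k + 1)) := by positivity
    have h3 : (N : ℝ) ^ (1 / 2 : ℝ) ≤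
        η * (cT * (c0 / κ0) ^ m * (c0 / (2 * κ)) ^ (k + 1)) * N / Real.log N ^ (m + (k + 1)) := by
      rw [le_div_iff₀ hLk]
      calc (N : ℝ) ^ (1 / 2 : ℝ) * Real.log N ^ (m + (k + 1)) ≤ (N : ℝ) ^ (1 / 2 : ℝ) *
            (η * (cT * (c0 / κ0) ^ m * (c0 / (2 * κ)) ^ (k + 1)) * (N : ℝ) ^ (1 / 2 : ℝ)) :=
            mul_le_mul_of_nonneg_left hN5 hsq0.le
        _ = η * (cT * (c0 / κ0) ^ m * (c0 / (2 * κ)) ^ (k + 1)) *
            ((N : ℝ) ^ (1 / 2 : ℝ) * (N : ℝ) ^ (1 / 2 : ℝ)) := by ring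
        _ = _ := by rw [hsqN]
    refine h3.trans ?_
    calc η * (cT * (c0 / κ0) ^ m * (c0 / (2 * κ)) ^ (k + 1)) * N / Real.log N ^ (m + (k + 1))
        = η * ((N * (cT * ((c0 / κ0) ^ m / Real.log N ^ m))) *
            ((c0 / (2 * κ)) ^ (k + 1) / Real.log N ^ (k + 1))) := by
          rw [pow_add (Real.log N) m (k + 1)]
          generalize (c0 / κ0) ^ m = X
          generalize (c0 / (2 * κ)) ^ (k + 1) = Y
          generalize Real.log N ^ (k + 1) = L2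
          generalize Real.log N ^ m = L1
          ring
      _ ≤ η * (n * G ^ i) := by
          apply mul_le_mul_of_nonneg_left _ hη0.le
          exact mul_le_mul hnl (h2.trans h1) (by positivity) hn0.le
  -- the indicator function of `P`
  obtain ⟨f, hf⟩ : ∃ f : ℕ → ℝ, f = fun p => if p ∈ P then 1 else 0 := ⟨_, rfl⟩
  have hfx : ∀ T : Finset ℕ, Fx f N y T = ∑ p ∈ P, gx N y T p := by
    intro T
    rw [hFx, ← sum_subset hP]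
    · refine sum_congr rfl fun p hp => ?_
      rw [hf]
      simp [hp]
    · intro p _ hp
      rw [hf]
      simp [hp]
  have hF0 : Fx f N y ∅ = P.card := by
    rw [hfx, sum_congr rfl fun p _ => hgx N y p]
    simp
  have hfbd : ∀ p, 0 ≤ f p ∧ f p ≤ muB T0 z y0 p := by
    intro p
    rw [hf]
    by_cases hp : p ∈ P
    · obtain ⟨hzp, hrp⟩ := hPr p hp
      simp only [hp, if_true]
      refine ⟨zero_le_one, ?_⟩
      unfold muB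
      rw [if_pos hzp, rT_eq, if_pos]
      intro h hh q hq hqy
      apply hrp h hh q hq
      calc (q : ℝ) ≤ y0 := by exact_mod_cast hqy
        _ ≤ (N : ℝ) ^ κ0 := hy0le
        _ ≤ (N : ℝ) ^ κ1 := Real.rpow_le_rpow_of_exponent_le hNr.le hκ0a
    · simp only [hp, if_false]
      refine ⟨le_rfl, ?_⟩
      unfold muB
      split_ifs
      · exact rT_nonneg _ _ _
      · exact le_rfl
  -- the steps
  have hsteps : ∀ j < k, ∑ S ∈ A.powersetCard j, ∑ t ∈ A \ S,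
      |Fx f N y (insert t S) - G * Fx f N y S| ≤ (C * s) * (n * (G * A.card) ^ (j + 1)) := by
    intro j hj
    have h1 := hstep' j N y A f (muB T0 z y0) hfbd G η n
      ((N : ℝ) ^ (1 / 2 : ℝ)) (fun T => PB (fz T0 z) (T.image (a N)) w y) hG0 hG2 hη0 hη1 hn0.le (by positivity)
      hone (he0 _ (by omega)) ?_ ?_
    · refine h1.trans ?_
      rw [hsq]
      apply mul_le_mul_of_nonneg_right _ (by positivity)
      exact mul_le_mul_of_nonneg_right (hC1 j hj) hs0.le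
    · intro T hT hTc
      refine ⟨hPB0 _, ?_⟩
      have h2 := hN3 T0 hm.symm hΔ z hz w y y0 hw2 hwΔ hyw hyy0 hy0K H T (by rw [← hA]; exact hT) (by omega)
      rw [← hη, ← hn] at h2
      exact h2
    · intro i hi
      refine (hG ▸ hav i (by omega)).trans ?_
      exact mul_le_mul_of_nonneg_right hζη (by positivity)
  have hch := hchain k A (Fx f N y) hG0.le (by positivity : 0 ≤ C * s) hn0.le hsteps
  rw [hF0] at hch
  -- bad sets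
  have hGk : 0 < G ^ k := by positivity
  have hlow : ∀ D ∈ Bad, 1 / 2 * (P.card * G ^ k) ≤ |Fx f N y D - G ^ k * P.card| := by
    intro D hD
    have h1 := (hBad D hD).2
    rw [← hG, ← hfx] at h1
    rw [abs_sub_comm]
    refine le_trans ?_ (le_abs_self _)
    linarith
  have hsum : (Bad.card : ℝ) * (1 / 2 * (P.card * G ^ k)) ≤
      ∑ D ∈ A.powersetCard k, |Fx f N y D - G ^ k * P.card| := by
    rw [← nsmul_eq_mul]
    refine (card_nsmul_le_sum Bad _ _ hlow).trans ?_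
    apply sum_le_sum_of_subset_of_nonneg
    · intro D hD
      rw [hA]
      exact (hBad D hD).1
    · intro D _ _
      exact abs_nonneg _
  have hfin := hsum.trans hch
  rw [← hA]
  have hLm : 0 < Real.log N ^ m := by positivity
  have hAk : 0 ≤ (A.card : ℝ) ^ k := by positivity
  have h8 : (Bad.card : ℝ) * (1 / 2 * P.card) ≤ k * (C * s) * n * (A.card : ℝ) ^ k := by
    have h9 : (Bad.card : ℝ) * (1 / 2 * P.card) * G ^ k ≤ k * (C * s) * n * (A.card : ℝ) ^ k * G ^ k := by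
      calc (Bad.card : ℝ) * (1 / 2 * P.card) * G ^ k = (Bad.card : ℝ) * (1 / 2 * (P.card * G ^ k)) := by ring
        _ ≤ _ := hfin
        _ = k * (C * s) * n * (A.card : ℝ) ^ k * G ^ k := by rw [mul_pow]; ring
    exact le_of_mul_le_mul_right h9 hGk
  have h10 : (Bad.card : ℝ) * (1 / 2 * δ) * (N / Real.log N ^ m) ≤
      (ε * (A.card : ℝ) ^ k) * (1 / 2 * δ) * (N / Real.log N ^ m) := by
    calc (Bad.card : ℝ) * (1 / 2 * δ) * (N / Real.log N ^ m) =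
          (Bad.card : ℝ) * (1 / 2 * (δ * (N / Real.log N ^ m))) := by ring
      _ ≤ (Bad.card : ℝ) * (1 / 2 * P.card) := by
          apply mul_le_mul_of_nonneg_left _ (Nat.cast_nonneg _)
          linarith
      _ ≤ k * (C * s) * n * (A.card : ℝ) ^ k := h8
      _ ≤ k * (C * s) * (N * (CT * ((2 / κ0) ^ m / Real.log N ^ m))) * (A.card : ℝ) ^ k := by
          apply mul_le_mul_of_nonneg_right _ hAk
          exact mul_le_mul_of_nonneg_left hnu (by positivity)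
      _ = k * (C * s) * (CT * (2 / κ0) ^ m) * ((N / Real.log N ^ m) * (A.card : ℝ) ^ k) := by ring
      _ ≤ δ * ε / 2 * ((N / Real.log N ^ m) * (A.card : ℝ) ^ k) := by
          apply mul_le_mul_of_nonneg_right hkey (by positivity)
      _ = _ := by ring
  exact le_of_mul_le_mul_right (le_of_mul_le_mul_right h10 (by positivity)) (by positivity)

/-- **B6** (`baseBT`), from the statements of the other pieces -/
theorem baseBT' (hbavT : ∀ (C η : ℝ), 0 ≤ C → 0 < η → ∀ Δ : ℕ, ∃ w₀ : ℕ, 2 ≤ w₀ ∧ ∀ w : ℕ, w₀ ≤ w → ∃ H₀ : ℕ,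
      ∀ H y : ℕ, H₀ ≤ H → ∀ h : ℤ, |h| ≤ Δ →
      ∑ t ∈ AW w 0 H, (∏ p ∈ (pz y).filter (fun p => w < p ∧ (p : ℤ) ∣ (t : ℤ) + h), (1 + C / (p : ℝ)) - 1) ≤
        η * (AW w 0 H).card)
    (hbav2 : St_bav2)
    (hcnt : ∀ m k Δ : ℕ, ∃ C0 : ℕ, 1 ≤ C0 ∧ ∀ b : ℕ, C0 ≤ b → ∀ᶠ N : ℕ in atTop, ∀ T0 : Finset ℕ, T0.card = m →
      (∀ h ∈ T0, h ≤ Δ) → ∀ z ∈ T0, ∀ w y y0 : ℕ, 2 ≤ w → Δ < w → w ≤ y → y ≤ y0 → y0 ^ (C0 * b) ≤ N → ∀ H : ℕ,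
      ∀ T ⊆ AW w 0 H, T.card ≤ k →
      |Ft (muB T0 z y0) N y T - N * VT y0 T0 * PB (fz T0 z) (sT T) w y| ≤
        (1 / 2) ^ b * (N * VT y0 T0 * PB (fz T0 z) (sT T) w y) + (N : ℝ) ^ (1 / 2 : ℝ))
    (hGB : St_GB) (hVT : St_VT)
    (k : ℕ) (T0 : Finset ℕ) (z : ℕ) (hz : z ∈ T0) (hadm : ∀ p : ℕ, p.Prime → fT T0 p < p)
    (δ ε κ1 : ℝ) (hδ : 0 < δ) (hε : 0 < ε) (hκ1 : 0 < κ1) : ∃ w₀ : ℕ, 2 ≤ w₀ ∧ ∀ w : ℕ, w₀ ≤ w → ∃ κ₀ : ℝ, 0 < κ₀ ∧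
    ∀ κ : ℝ, 0 < κ → κ ≤ κ₀ →
    ∃ Λ : ℝ, 0 < Λ ∧ ∀ᶠ N : ℕ in atTop, ∀ y : ℕ, (y : ℝ) < (N : ℝ) ^ κ → (N : ℝ) ^ κ ≤ y + 1 →
    ∀ H : ℕ, Λ * Real.log N ≤ H → H ≤ N → ∀ P ⊆ Icc 1 N,
    (∀ p ∈ P, z < p ∧ ∀ h ∈ T0, ∀ q : ℕ, q.Prime → (q : ℝ) ≤ (N : ℝ) ^ κ1 → ¬ q ∣ p - z + h) →
    δ * (N / Real.log N ^ T0.card) ≤ P.card →
    ∀ Bad : Finset (Finset ℕ), (∀ D ∈ Bad, D ∈ (AW w 0 H).powersetCard k ∧
      ∑ p ∈ P, ∏ t ∈ D, ro y (p + t) < 1 / 2 * (P.card * GB T0.card w y ^ k)) →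
    (Bad.card : ℝ) ≤ ε * ((AW w 0 H).card : ℝ) ^ k := by
  have hlim : Tendsto (fun N : ℕ => Real.log (N : ℝ)) atTop atTop :=
    Real.tendsto_log_atTop.comp (tendsto_natCast_atTop_atTop (R := ℝ))
  refine coreB Ft (fun _ y T m => ∏ t ∈ T, ro y (m + t)) (fun _ => 0) (fun _ t => (t : ℤ))
    (fun _ _ _ _ => rfl) (fun _ _ _ => prod_empty) (fun _ _ _ => Or.inl rfl) ?_ ?_ hbav2 hcnt hGB hVT
    AW_card (Pool.Agent.J4.H31.DV.stepDT_of dualT) (fun k A F _ _ _ => Pool.Agent.J4.H56.DV.chain k A F) k T0 z hz hadm δ ε κ1 hδ hε hκ1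
  · intro C η hC hη Δ
    obtain ⟨w₀, h2, h⟩ := hbavT C η hC hη Δ
    refine ⟨w₀, h2, fun w hw => ?_⟩
    obtain ⟨H₀, hH₀⟩ := h w hw
    filter_upwards [hlim.eventually_ge_atTop (H₀ : ℝ)] with N hN H y hH _ h hh
    have h1 := hH₀ H y (by exact_mod_cast hN.trans hH) (-h) (by rwa [abs_neg])
    simpa only [← sub_eq_add_neg] using h1
  · intro C η hC hη
    obtain ⟨w₀, h2, h⟩ := Pool.Agent.J4.H55.DV.rav1T C η hC hη
    refine ⟨w₀, h2, fun w hw => ?_⟩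
    obtain ⟨H₀, hH₀⟩ := h w hw
    filter_upwards [hlim.eventually_ge_atTop (H₀ : ℝ)] with N hN H y hH _
    exact (hH₀ H y (by exact_mod_cast hN.trans hH)).2

/-- **B6** (`baseBG`), from the statements of the other pieces -/
theorem baseBG' (hbavG : ∀ (C η : ℝ), 0 ≤ C → 0 < η → ∀ Δ : ℕ, ∃ w₀ : ℕ, 2 ≤ w₀ ∧ ∀ w : ℕ, w₀ ≤ w → ∀ᶠ N : ℕ in atTop,
      ∀ H y : ℕ, Real.log N ≤ H → H ≤ N → ∀ h : ℤ, |h| ≤ Δ →
      ∑ t ∈ AW w N H, (∏ p ∈ (pz y).filter (fun p => w < p ∧ (p : ℤ) ∣ (N : ℤ) + t + h), (1 + C / (p : ℝ)) - 1) ≤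
        η * (AW w N H).card)
    (hbav2 : St_bav2)
    (hcnt : ∀ m k Δ : ℕ, ∃ C0 : ℕ, 1 ≤ C0 ∧ ∀ b : ℕ, C0 ≤ b → ∀ᶠ N : ℕ in atTop, ∀ T0 : Finset ℕ, T0.card = m →
      (∀ h ∈ T0, h ≤ Δ) → ∀ z ∈ T0, ∀ w y y0 : ℕ, 2 ≤ w → Δ < w → w ≤ y → y ≤ y0 → y0 ^ (C0 * b) ≤ N → ∀ H : ℕ,
      ∀ T ⊆ AW w N H, T.card ≤ k →
      |Fs (muB T0 z y0) N y T - N * VT y0 T0 * PB (fz T0 z) (sG N T) w y| ≤
        (1 / 2) ^ b * (N * VT y0 T0 * PB (fz T0 z) (sG N T) w y) + (N : ℝ) ^ (1 / 2 : ℝ))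
    (hGB : St_GB) (hVT : St_VT)
    (k : ℕ) (T0 : Finset ℕ) (z : ℕ) (hz : z ∈ T0) (hadm : ∀ p : ℕ, p.Prime → fT T0 p < p)
    (δ ε κ1 : ℝ) (hδ : 0 < δ) (hε : 0 < ε) (hκ1 : 0 < κ1) : ∃ w₀ : ℕ, 2 ≤ w₀ ∧ ∀ w : ℕ, w₀ ≤ w → ∃ κ₀ : ℝ, 0 < κ₀ ∧
    ∀ κ : ℝ, 0 < κ → κ ≤ κ₀ →
    ∃ Λ : ℝ, 0 < Λ ∧ ∀ᶠ N : ℕ in atTop, ∀ y : ℕ, (y : ℝ) < (N : ℝ) ^ κ → (N : ℝ) ^ κ ≤ y + 1 →
    ∀ H : ℕ, Λ * Real.log N ≤ H → H ≤ N → ∀ P ⊆ Icc 1 N,
    (∀ p ∈ P, z < p ∧ ∀ h ∈ T0, ∀ q : ℕ, q.Prime → (q : ℝ) ≤ (N : ℝ) ^ κ1 → ¬ q ∣ p - z + h) →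
    δ * (N / Real.log N ^ T0.card) ≤ P.card →
    ∀ Bad : Finset (Finset ℕ), (∀ D ∈ Bad, D ∈ (AW w N H).powersetCard k ∧
      ∑ p ∈ P, ∏ t ∈ D, ro y (N - p + t) < 1 / 2 * (P.card * GB T0.card w y ^ k)) →
    (Bad.card : ℝ) ≤ ε * ((AW w N H).card : ℝ) ^ k := by
  refine coreB Fs (fun N y T m => ∏ t ∈ T, ro y (N - m + t)) (fun N => N) (fun N t => -((N : ℤ) + t))
    (fun _ _ _ _ => rfl) (fun _ _ _ => prod_empty) (fun _ _ _ => Or.inr (by ring)) ?_ ?_ hbav2 hcnt hGB hVT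
    AW_card Pool.Agent.J4.H31.DV.stepD (fun k A F _ _ _ => Pool.Agent.J4.H56.DV.chain k A F) k T0 z hz hadm δ ε κ1 hδ hε hκ1
  · intro C η hC hη Δ
    obtain ⟨w₀, h2, h⟩ := hbavG C η hC hη Δ
    refine ⟨w₀, h2, fun w hw => ?_⟩
    filter_upwards [h w hw] with N hN H y hH hHN h hh
    have h1 := hN H y hH hHN h hh
    refine le_trans (le_of_eq ?_) h1
    refine sum_congr rfl fun t _ => ?_
    congr 2
    ext p
    simp only [mem_filter]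
    have h2 : ((p : ℤ) ∣ -((N : ℤ) + t) - h) ↔ (p : ℤ) ∣ (N : ℤ) + t + h := by
      rw [← dvd_neg]
      ring_nf
    rw [h2]
  · intro C η hC hη
    obtain ⟨w₀, h2, h⟩ := Pool.Agent.J4.H31.DV.rav1 C η hC hη
    refine ⟨w₀, h2, fun w hw => ?_⟩
    filter_upwards [h w hw] with N hN H y hH hHN
    exact (hN H y hH hHN).2

end Pool.Agent.J4.H60.BP
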