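import Mathlib
import Pool.Agent.J4.H38.BP.Defs
import Pool.Agent.X34.E.E4
import Pool.Agent.Y826.ZC.T45

/-! Project BP (helper38), piece B8: many pairs of primes at a distance at most 212, at which 45 forms
are free of small prime factors. -/

set_option autoImplicit false

open Finset Filter

namespace Pool.Agent.J4.H60.BP

open Pool.Agent.J4.H38.SR (fT)
open Pool.Agent.Y826.ZC (tup45 tup45_admissible tup45_le)
open Pool.Agent.H95R2.BG.LF (AdmissibleL)
open Pool.Agent.X34.E (RoughL goodR Dhl45R dhl45R)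

/-- the shifted tuple -/
def tz (i : Fin 45) : Finset ℕ := Finset.univ.image (fun l : Fin 45 => 212 - tup45 i + tup45 l)

lemma tup_inj : Function.Injective tup45 := tup45_admissible.1

lemma tz_card (i : Fin 45) : (tz i).card = 45 := by
  unfold tz
  rw [card_image_of_injective, card_univ, Fintype.card_fin]
  intro a b h
  apply tup_inj
  simpa using h

lemma tz_mem (i : Fin 45) : 212 ∈ tz i := by
  refine mem_image.2 ⟨i, mem_univ _, ?_⟩
  have := tup45_le i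
  omega

lemma tz_le (i : Fin 45) : ∀ h ∈ tz i, h ≤ 424 := by
  intro h hh
  obtain ⟨l, -, rfl⟩ := mem_image.1 hh
  have := tup45_le l
  omega

lemma tz_adm (i : Fin 45) (p : ℕ) (hp : p.Prime) : fT (tz i) p < p := by
  obtain ⟨a, ha⟩ := tup45_admissible.2 p hp
  have hp0 := hp.pos
  set r : ℕ := (a + tup45 i + 212 * (p - 1)) % p with hr
  have hrp : r < p := Nat.mod_lt _ hp0
  have hnot : r ∉ (range p).filter (fun r => ∃ t ∈ tz i, p ∣ r + t) := by
    intro h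
    obtain ⟨-, t, ht, hd⟩ := mem_filter.1 h
    obtain ⟨l, -, rfl⟩ := mem_image.1 ht
    apply ha l
    have h1 : r + (212 - tup45 i + tup45 l) ≡
        (a + tup45 i + 212 * (p - 1)) + (212 - tup45 i + tup45 l) [MOD p] :=
      Nat.ModEq.add_right _ (Nat.mod_modEq _ _)
    have h2 : (a + tup45 i + 212 * (p - 1)) + (212 - tup45 i + tup45 l) =
        (a + tup45 l) + 212 * p := by
      have h3 := tup45_le i
      have h4 : 212 * p = 212 * (p - 1) + 212 := by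
        obtain ⟨s, hs⟩ : ∃ s, p = s + 1 := ⟨p - 1, by omega⟩
        rw [hs, Nat.add_sub_cancel]
        ring
      omega
    rw [h2] at h1
    have h5 : p ∣ (a + tup45 l) + 212 * p :=
      (Nat.modEq_zero_iff_dvd).1 (h1.symm.trans ((Nat.modEq_zero_iff_dvd).2 hd))
    exact (Nat.dvd_add_left (dvd_mul_left p 212)).1 h5
  have hlt : ((range p).filter (fun r => ∃ t ∈ tz i, p ∣ r + t)) ⊂ range p := by
    refine ⟨filter_subset _ _, fun h => hnot (h (mem_range.2 hrp))⟩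
  have := card_lt_card hlt
  rw [card_range] at this
  exact this

lemma tup_even (i : Fin 45) : Even (tup45 i) := by
  revert i
  decide

attribute [local irreducible] tup45

/-- `n` such that two given members of the tuple are prime -/
noncomputable def gij (k X : ℝ) (i j : Fin 45) : Finset ℕ := by
  classical
  exact (goodR k (fun _ : Fin 45 => 1) tup45 X).filter
    (fun n => tup45 i < tup45 j ∧ (n + tup45 i).Prime ∧ (n + tup45 j).Prime)

set_option maxRecDepth 100000 in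
lemma good_le (k X : ℝ) : ((goodR k (fun _ : Fin 45 => 1) tup45 X).card : ℝ) ≤
    ∑ ij : Fin 45 × Fin 45, ((gij k X ij.1 ij.2).card : ℝ) := by
  classical
  have h1 : goodR k (fun _ : Fin 45 => 1) tup45 X ⊆
      (univ : Finset (Fin 45 × Fin 45)).biUnion (fun ij => gij k X ij.1 ij.2) := by
    intro n hn
    have hn' := hn
    unfold goodR at hn'
    obtain ⟨-, -, -, i, j, hij, hi, hj⟩ := mem_filter.1 hn'
    have hi' : (1 * n + tup45 i).Prime := hi
    have hj' : (1 * n + tup45 j).Prime := hj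
    rw [one_mul] at hi' hj'
    refine mem_biUnion.2 ?_
    have hne : tup45 i ≠ tup45 j := fun h => hij (tup_inj h)
    rcases lt_or_gt_of_ne hne with h | h
    · exact ⟨(i, j), mem_univ _, mem_filter.2 ⟨hn, h, hi', hj'⟩⟩
    · exact ⟨(j, i), mem_univ _, mem_filter.2 ⟨hn, h, hj', hi'⟩⟩
  have h2 := (card_le_card h1).trans card_biUnion_le
  exact_mod_cast h2

theorem pairs45_of (h45 : ∃ k : ℝ, 0 < k ∧ ∀ (A B : Fin 45 → ℕ), AdmissibleL A B →
      ∃ c : ℝ, 0 < c ∧ ∀ᶠ X : ℝ in atTop, c * X / Real.log X ^ 45 ≤ ((goodR k A B X).card : ℝ)) :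
    ∃ (κ1 δ : ℝ) (F : Finset (Finset ℕ)), 0 < κ1 ∧ 0 < δ ∧
    (∀ T0 ∈ F, T0.card = 45 ∧ 212 ∈ T0 ∧ (∀ h ∈ T0, h ≤ 424) ∧ ∀ p : ℕ, p.Prime → fT T0 p < p) ∧
    ∀ᶠ N : ℕ in atTop, ∃ T0 ∈ F, ∃ g : ℕ, 2 ≤ g ∧ g ≤ 212 ∧ Even g ∧ ∃ P ⊆ Icc 1 N,
      (∀ p ∈ P, 212 < p ∧ p + g ≤ N ∧ p.Prime ∧ (p + g).Prime ∧
        ∀ h ∈ T0, ∀ q : ℕ, q.Prime → (q : ℝ) ≤ (N : ℝ) ^ κ1 → ¬ q ∣ p - 212 + h) ∧
      δ * (N / Real.log N ^ 45) ≤ P.card := by
  classical
  obtain ⟨k, hk, hall⟩ := h45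
  obtain ⟨c, hc, hev⟩ := hall (fun _ => 1) tup45 ⟨fun _ => le_rfl, fun i j hij h => by
    rw [one_mul, one_mul] at h
    exact hij (tup_inj h.symm), fun p hp => by
    obtain ⟨a, ha⟩ := tup45_admissible.2 p hp
    exact ⟨a, fun i => by rw [one_mul]; exact ha i⟩⟩
  refine ⟨k / 2, c / 8100, univ.image tz, by positivity, by positivity, ?_, ?_⟩
  · intro T0 hT
    obtain ⟨i, -, rfl⟩ := mem_image.1 hT
    exact ⟨tz_card i, tz_mem i, tz_le i, tz_adm i⟩
  have hX : Tendsto (fun N : ℕ => (N : ℝ) / 4) atTop atTop :=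
    tendsto_natCast_atTop_atTop.atTop_div_const (by norm_num)
  filter_upwards [hX.eventually hev, eventually_ge_atTop 1000] with N hN hN0
  have hNr : (1000 : ℝ) ≤ N := by exact_mod_cast hN0
  have hlogX : 0 < Real.log ((N : ℝ) / 4) := Real.log_pos (by linarith)
  have hlog : Real.log ((N : ℝ) / 4) ≤ Real.log N := Real.log_le_log (by linarith) (by linarith)
  -- the pigeonhole principle
  obtain ⟨⟨i, j⟩, -, hij⟩ := exists_le_of_sum_le (s := (univ : Finset (Fin 45 × Fin 45)))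
    (f := fun _ => (c / 2025) * (((N : ℝ) / 4) / Real.log ((N : ℝ) / 4) ^ 45))
    (g := fun ij => ((gij k ((N : ℝ) / 4) ij.1 ij.2).card : ℝ)) univ_nonempty (by
      rw [sum_const, card_univ, Fintype.card_prod, Fintype.card_fin, nsmul_eq_mul]
      refine le_trans (le_of_eq ?_) (hN.trans (good_le k _))
      push_cast
      ring)
  have hpos : 0 < (c / 2025) * (((N : ℝ) / 4) / Real.log ((N : ℝ) / 4) ^ 45) := by positivity
  have hcard : 0 < (gij k ((N : ℝ) / 4) i j).card := by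
    have : (0 : ℝ) < (gij k ((N : ℝ) / 4) i j).card := lt_of_lt_of_le hpos hij
    exact_mod_cast this
  obtain ⟨n0, hn0⟩ := card_pos.1 hcard
  have hlt : tup45 i < tup45 j := (mem_filter.1 hn0).2.1
  have hi212 := tup45_le i
  have hj212 := tup45_le j
  have key : ∀ n ∈ gij k ((N : ℝ) / 4) i j, 250 ≤ n ∧ 4 * n ≤ 3 * N ∧
      RoughL k ((N : ℝ) / 4) (fun _ : Fin 45 => 1) tup45 n ∧ (n + tup45 i).Prime ∧
      (n + tup45 j).Prime := by
    intro n hn
    obtain ⟨h1, -, h3, h4⟩ := mem_filter.1 hn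
    unfold goodR at h1
    obtain ⟨h5, h6, h7, -⟩ := mem_filter.1 h1
    have h8 := (mem_Icc.1 h5).2
    have h9 : (n : ℝ) ≤ 3 * ((N : ℝ) / 4) := (Nat.le_floor_iff (by positivity)).1 h8
    refine ⟨?_, ?_, h7, h3, h4⟩
    · have : (250 : ℝ) ≤ n := by linarith
      exact_mod_cast this
    · have : 4 * (n : ℝ) ≤ 3 * N := by linarith
      exact_mod_cast this
  refine ⟨tz i, mem_image_of_mem _ (mem_univ _), tup45 j - tup45 i, ?_, by omega, ?_,
    (gij k ((N : ℝ) / 4) i j).image (fun n => n + tup45 i), ?_, ?_, ?_⟩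
  · obtain ⟨a, ha⟩ := tup_even i
    obtain ⟨b, hb⟩ := tup_even j
    omega
  · obtain ⟨a, ha⟩ := tup_even i
    obtain ⟨b, hb⟩ := tup_even j
    exact ⟨b - a, by omega⟩
  · intro p hp
    obtain ⟨n, hn, rfl⟩ := mem_image.1 hp
    obtain ⟨h1, h2, -⟩ := key n hn
    rw [mem_Icc]
    omega
  · intro p hp
    obtain ⟨n, hn, rfl⟩ := mem_image.1 hp
    obtain ⟨h1, h2, h3, h4, h5⟩ := key n hn
    have e1 : n + tup45 i + (tup45 j - tup45 i) = n + tup45 j := by omega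
    refine ⟨by omega, by omega, h4, by rw [e1]; exact h5, ?_⟩
    intro h hh q hq hqN
    obtain ⟨l, -, rfl⟩ := mem_image.1 hh
    have e2 : n + tup45 i - 212 + (212 - tup45 i + tup45 l) = 1 * n + tup45 l := by omega
    rw [e2]
    refine h3 l q hq (hqN.trans ?_)
    -- `N ^ (k / 2) ≤ (N / 4) ^ k`
    have hN4 : (0 : ℝ) ≤ (N : ℝ) / 4 := by positivity
    have e3 : (N : ℝ) ≤ ((N : ℝ) / 4) ^ 2 := by
      have e4 : (N : ℝ) * 1 ≤ (N : ℝ) * (N / 16) :=
        mul_le_mul_of_nonneg_left (by linarith) (by positivity)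
      calc (N : ℝ) = (N : ℝ) * 1 := (mul_one _).symm
        _ ≤ (N : ℝ) * (N / 16) := e4
        _ = ((N : ℝ) / 4) ^ 2 := by ring
    calc (N : ℝ) ^ (k / 2) ≤ (((N : ℝ) / 4) ^ 2) ^ (k / 2) :=
          Real.rpow_le_rpow (by positivity) e3 (by positivity)
      _ = ((N : ℝ) / 4) ^ k := by
          rw [← Real.rpow_natCast, ← Real.rpow_mul hN4]
          congr 1
          push_cast
          ring
  · rw [card_image_of_injective _ (fun a b h => by simpa using h)]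
    refine le_trans ?_ hij
    have h1 : (N : ℝ) / Real.log N ^ 45 ≤ N / Real.log ((N : ℝ) / 4) ^ 45 := by
      apply div_le_div_of_nonneg_left (by positivity) (by positivity)
      exact pow_le_pow_left₀ hlogX.le hlog 45
    calc c / 8100 * (N / Real.log N ^ 45) ≤ c / 8100 * (N / Real.log ((N : ℝ) / 4) ^ 45) :=
          mul_le_mul_of_nonneg_left h1 (by positivity)
      _ = c / 2025 * ((N : ℝ) / 4 / Real.log ((N : ℝ) / 4) ^ 45) := by ring

theorem pairs45 : ∃ (κ1 δ : ℝ) (F : Finset (Finset ℕ)), 0 < κ1 ∧ 0 < δ ∧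
    (∀ T0 ∈ F, T0.card = 45 ∧ 212 ∈ T0 ∧ (∀ h ∈ T0, h ≤ 424) ∧ ∀ p : ℕ, p.Prime → fT T0 p < p) ∧
    ∀ᶠ N : ℕ in atTop, ∃ T0 ∈ F, ∃ g : ℕ, 2 ≤ g ∧ g ≤ 212 ∧ Even g ∧ ∃ P ⊆ Icc 1 N,
      (∀ p ∈ P, 212 < p ∧ p + g ≤ N ∧ p.Prime ∧ (p + g).Prime ∧
        ∀ h ∈ T0, ∀ q : ℕ, q.Prime → (q : ℝ) ≤ (N : ℝ) ^ κ1 → ¬ q ∣ p - 212 + h) ∧
      δ * (N / Real.log N ^ 45) ≤ P.card :=
  pairs45_of dhl45R

end Pool.Agent.J4.H60.BP
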